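import Pool.Agent.helper5.IH.Spec

/-! # ih:N1W: c_2 from the words -/

set_option autoImplicit false

namespace Pool.Agent.IH
open Finset CT SYM

theorem N1W (hPOS : POS_stmt) (hEMB : EMB_stmt) (hLBW : LBW_stmt) (hKER : KER_stmt) (hN8C : N8C_stmt)
    (hLB0 : SYM.LB0_stmt) : N1W_stmt := by
  intro V _ _ G m q v hG h6 hE
  obtain ⟨a, b, hP⟩ := hPOS V G m q hG hE
  obtain ⟨e, he1, he2, hA, h1, h2, h3⟩ := hEMB V G m q a b hG hE hP
  have hnd : ((univ : Finset V).erase v).toList.Nodup := Finset.nodup_toList _
  have hL : ((univ : Finset V).erase v).toList.toFinset = univ.erase v := Finset.toList_toFinset _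
  generalize ((univ : Finset V).erase v).toList = L at hnd hL
  have hvL : v ∉ L := by
    intro h
    have h4 : v ∈ L.toFinset := List.mem_toFinset.2 h
    rw [hL] at h4
    exact Finset.notMem_erase v _ h4
  have hins : insert v L.toFinset = univ := by
    rw [hL]
    exact Finset.insert_erase (Finset.mem_univ v)
  have key : ∀ t : V → Fin 3, lps (L ++ [v]) e t = 1 ↔ Odd (mu (IG m q) t) := by
    intro t
    have e1 := (hLB0 V v L e t hnd hvL hins hA).2
    have e2 := hLBW V G m q a b e t hE hP he1 he2
    have e3 : 2 ^ lps (L ++ [v]) e t = 2 * Nat.card {z : V → ZMod 2 // Kz (IG m q) t z} := e1.symm.trans e2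
    rw [← hKER V (IG m q) t]
    constructor
    · intro h
      rw [h] at e3
      omega
    · intro h
      rw [h] at e3
      have e4 : 2 ^ lps (L ++ [v]) e t = 2 ^ 1 := by
        rw [e3]
        norm_num
      exact Nat.pow_right_injective le_rfl e4
  have hc : nS (IG m q) ∅ = Nat.card {t : V → Fin 3 // lps (L ++ [v]) e t = 1} := by
    unfold nS
    refine Nat.card_congr (Equiv.subtypeEquivRight fun t => ?_)
    rw [key t]
    constructor
    · intro h
      exact h.2
    · intro h
      exact ⟨fun w hw => absurd hw (Finset.notMem_empty w), h⟩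
  rw [hc]
  exact hN8C V G v e L hG h6 hA h1 h2 h3 hnd hL

end Pool.Agent.IH
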