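import Pool.Agent.helper5.IH.Spec

/-! # ih:NSD: the first counting identity -/

set_option autoImplicit false

namespace Pool.Agent.IH
open Finset CT SYM

theorem NSD_cnt {α : Type} (p q : α → Prop) [Fintype {t : α // p t}] [DecidablePred q] :
    Nat.card {t : α // p t ∧ q t} = ∑ s : {t : α // p t}, if q s.1 then 1 else 0 := by
  classical
  rw [← Finset.card_filter, ← Fintype.card_subtype, ← Nat.card_eq_fintype_card]
  exact Nat.card_congr (Equiv.subtypeSubtypeEquivSubtypeInter p q).symm

theorem NSD_par (f : Fin 3 → ℕ) (h : f 2 = f 0 + f 1) :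
    Nat.card {k : Fin 3 // Odd (f k)} =
      2 * (if Odd (f 0) then 1 else 0) + 2 * (if Even (f 0) ∧ Odd (f 1) then 1 else 0) := by
  classical
  rw [Nat.card_eq_fintype_card, Fintype.card_subtype, Finset.card_filter, Fin.sum_univ_three, h]
  rcases Nat.even_or_odd (f 0) with h0 | h0 <;> rcases Nat.even_or_odd (f 1) with h1 | h1
  · have a0 : ¬ Odd (f 0) := Nat.not_odd_iff_even.2 h0
    have a1 : ¬ Odd (f 1) := Nat.not_odd_iff_even.2 h1
    have a2 : ¬ Odd (f 0 + f 1) := Nat.not_odd_iff_even.2 (h0.add h1)
    simp [a0, a1, a2]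
  · have a0 : ¬ Odd (f 0) := Nat.not_odd_iff_even.2 h0
    have a2 : Odd (f 0 + f 1) := h0.add_odd h1
    simp [a0, h1, a2, h0]
  · have b0 : ¬ Even (f 0) := Nat.not_even_iff_odd.2 h0
    have a1 : ¬ Odd (f 1) := Nat.not_odd_iff_even.2 h1
    have a2 : Odd (f 0 + f 1) := h0.add_even h1
    simp [h0, a1, a2, b0]
  · have b0 : ¬ Even (f 0) := Nat.not_even_iff_odd.2 h0
    have a2 : ¬ Odd (f 0 + f 1) := Nat.not_odd_iff_even.2 (h0.add_odd h1)
    simp [h0, h1, a2, b0]

theorem NSD (hMU2 : MU2_stmt) : NSD_stmt := by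
  classical
  intro V _ dV H S v hv
  have : Fintype V := Fintype.ofFinite V
  have hz : ∀ s : {s : V → Fin 3 // ∀ w ∈ insert v S, s w = 0}, Function.update s.1 v 0 = s.1 := by
    intro s
    have h0 : s.1 v = 0 := s.2 v (Finset.mem_insert_self v S)
    funext w
    by_cases hw : w = v
    · rw [hw, Function.update_self, h0]
    · rw [Function.update_of_ne hw]
  have e1 : nS H S = ∑ s : {s : V → Fin 3 // ∀ w ∈ insert v S, s w = 0},
      Nat.card {k : Fin 3 // Odd (mu H (Function.update s.1 v k))} := by
    unfold nS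
    rw [← Nat.card_sigma]
    apply Nat.card_congr
    refine ⟨fun t => ⟨⟨Function.update t.1 v 0, ?_⟩, ⟨t.1 v, ?_⟩⟩,
      fun p => ⟨Function.update p.1.1 v p.2.1, ?_, p.2.2⟩, ?_, ?_⟩
    · intro w hw
      by_cases hwv : w = v
      · rw [hwv, Function.update_self]
      · rw [Function.update_of_ne hwv]
        exact t.2.1 w ((Finset.mem_insert.1 hw).resolve_left hwv)
    · have e : Function.update (Function.update t.1 v 0) v (t.1 v) = t.1 := by
        rw [Function.update_idem, Function.update_eq_self]
      change Odd (mu H (Function.update (Function.update t.1 v 0) v (t.1 v)))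
      rw [e]
      exact t.2.2
    · intro w hw
      have hwv : w ≠ v := fun h => hv (h ▸ hw)
      rw [Function.update_of_ne hwv]
      exact p.1.2 w (Finset.mem_insert_of_mem hw)
    · intro t
      apply Subtype.ext
      change Function.update (Function.update t.1 v 0) v (t.1 v) = t.1
      rw [Function.update_idem, Function.update_eq_self]
    · intro p
      refine Sigma.subtype_ext ?_ ?_
      · apply Subtype.ext
        change Function.update (Function.update p.1.1 v p.2.1) v 0 = p.1.1
        rw [Function.update_idem, hz p.1]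
      · change Function.update p.1.1 v p.2.1 v = p.2.1
        rw [Function.update_self]
  have e3 : nS H (insert v S) = ∑ s : {s : V → Fin 3 // ∀ w ∈ insert v S, s w = 0},
      if Odd (mu H s.1) then 1 else 0 := by
    unfold nS
    exact NSD_cnt (fun t : V → Fin 3 => ∀ w ∈ insert v S, t w = 0) (fun t => Odd (mu H t))
  have e4 : al H S v = ∑ s : {s : V → Fin 3 // ∀ w ∈ insert v S, s w = 0},
      if Even (mu H s.1) ∧ Odd (mu H (Function.update s.1 v 1)) then 1 else 0 := by
    unfold al
    exact NSD_cnt (fun t : V → Fin 3 => ∀ w ∈ insert v S, t w = 0)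
      (fun t => Even (mu H t) ∧ Odd (mu H (Function.update t v 1)))
  rw [e1, e3, e4, Finset.mul_sum, Finset.mul_sum, ← Finset.sum_add_distrib]
  refine Finset.sum_congr rfl fun s _ => ?_
  have h := NSD_par (fun k => mu H (Function.update s.1 v k)) (hMU2 V H s.1 v)
  rw [h]
  change 2 * (if Odd (mu H (Function.update s.1 v 0)) then 1 else 0) +
    2 * (if Even (mu H (Function.update s.1 v 0)) ∧ Odd (mu H (Function.update s.1 v 1)) then 1 else 0) = _
  rw [hz s]

end Pool.Agent.IH
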